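import Pool.Agent.H30.MZ.Final2
import Pool.Agent.H30.MZ.Int
import Pool.Agent.H30.MZ.Rot
import Pool.Agent.H76.MZ.Cos
import Pool.Agent.H76.MZ.Fej
import Pool.Agent.H76.MZ.Win

/-!
# Furstenberg's orbit closure conjecture holds for every point of the generic orbit closure

The infinite orbit closures of the multiplication by `a` on the circle form a space (Hausdorff
metric). For a dense `G_δ` set of orbit closures `K`, EVERY point `r` of `K` has
`dim O_a(r) = 0` and a dense orbit under multiplication by every `b` multiplicatively independent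
of `a`.

Proof (see `Pool/Agent/H30/MZ/NOTES.md`): a window lemma (for at least half of the words `z` of
length `m` a window of the `× b`-orbit is `δ`-dense, whatever the other digits are; from mean
values of `∏ |cos (π u β ^ n / A ^ j)|` along an irrational rotation and the Weyl criterion), a
greedy choice of two words such that every start in every concatenation meets a good window after
bounded time, iteration, and Baire category.
-/

set_option autoImplicit false

namespace Pool.Agent.Results.MP_c9a594_an.GenericOrbitClosure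

open Set TopologicalSpace

/-- The orbit closure of `x` under multiplication by `m` modulo one, as a set of reals. -/
def OrbitClosure (m : ℕ) (x : ℝ) : Set ℝ :=
  closure (Set.range fun n : ℕ => Int.fract ((m : ℝ) ^ n * x))

/-- `a` and `b` are multiplicatively independent. -/
def Indep (a b : ℕ) : Prop := ∀ k l : ℕ, 0 < k → 0 < l → a ^ k ≠ b ^ l

/-- `K` is an infinite orbit closure of the multiplication by `a` on the circle `ℝ / ℤ`. -/
def IsInfiniteOrbitClosure (a : ℕ) (K : Set (AddCircle (1 : ℝ))) : Prop :=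
  K.Infinite ∧ ∃ x : AddCircle (1 : ℝ), K = closure (range fun n : ℕ => a ^ n • x)

/-- The space of all infinite orbit closures of the multiplication by `a`, with the Hausdorff
metric. -/
abbrev OrbitClosures (a : ℕ) :=
  {K : NonemptyCompacts (AddCircle (1 : ℝ)) //
    IsInfiniteOrbitClosure a (K : Set (AddCircle (1 : ℝ)))}

/-- `F` is a countable set of triples `(β, θ, y)` with `β > 1` real, `log β / log a` irrational,
`θ ≠ 0` real and `y` an arbitrary sequence of reals. -/
def Admissible (a : ℕ) (F : Set (ℝ × ℝ × (ℕ → ℝ))) : Prop :=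
  F.Countable ∧ ∀ q ∈ F, 1 < q.1 ∧ Irrational (Real.log q.1 / Real.log a) ∧ q.2.1 ≠ 0

theorem result (a : ℕ) (ha : 2 ≤ a) (F : Set (ℝ × ℝ × (ℕ → ℝ))) (hF : Admissible a F) :
    Nonempty (OrbitClosures a) ∧ ∃ G : Set (OrbitClosures a), IsGδ G ∧ Dense G ∧
      ∀ K ∈ G, ∀ r : ℝ, (r : AddCircle (1 : ℝ)) ∈ K.1 →
        (∀ b : ℕ, 2 ≤ b → Indep a b →
          OrbitClosure b r = Icc 0 1 ∧ dimH (OrbitClosure a r) = 0 ∧
            dimH (OrbitClosure a r) + dimH (OrbitClosure b r) = 1) ∧
        ∀ q ∈ F, ∀ v ε : ℝ, 0 < ε → ∀ N : ℕ, ∃ n ≥ N, ∃ k : ℤ,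
          |q.2.1 * q.1 ^ n * r + q.2.2 n - v - k| < ε := by
  have hS := H30.MZ.STAGE_proved
    (H76.MZ.WIN_proved (H76.MZ.COS_proved H30.MZ.INT_proved H30.MZ.ROT_proved)
      H76.MZ.FEJ_proved) (H30.MZ.LOOP_proved H30.MZ.AUT_proved)
  refine ⟨?_, ?_⟩
  · obtain ⟨⟨⟨K, hK⟩⟩, -⟩ := H30.MZ.main_of hS a ha F hF.1 hF.2
    exact ⟨⟨K, H30.MZ.orb_of_min a K hK⟩⟩
  · obtain ⟨G, h1, h2, h3⟩ := H30.MZ.main2_of hS a ha F hF.1 hF.2
    exact ⟨G, h2, h3, fun K hK r hr => h1 hK r hr⟩

end Pool.Agent.Results.MP_c9a594_an.GenericOrbitClosure
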